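import Mathlib
import Pool.Agent.W964.Wd.Gen.Hard
import Pool.Agent.W964.Wd.Or.Main
import Pool.Agent.W964.Pram.Uniq
import Pool.Agent.W964.Pram.CntArith

/-!
The prediction of a hidden bit of the unique solution.
-/

set_option linter.unusedSectionVars false

namespace Pool.Agent.W964.Wd

open Finset H568R2 H592R3 Pool.Agent.W964.Pram

lemma Ex_one {I : Type} [Fintype I] [DecidableEq I] (w : Bool → ℝ) (f : (I → Bool) → ℝ) :
    Ex w (fun X : Fin 1 × I → Bool => f (fun v => X (0, v))) = Ex w f := by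
  unfold Ex
  let E : (Fin 1 × I → Bool) ≃ (I → Bool) :=
    { toFun := fun X v => X (0, v)
      invFun := fun Y p => Y p.2
      left_inv := by
        intro X
        funext p
        obtain ⟨i, v⟩ := p
        have : i = 0 := Subsingleton.elim _ _
        subst this
        rfl
      right_inv := fun Y => rfl }
  refine Fintype.sum_equiv E _ _ ?_
  intro X
  have h : ∏ i : Fin 1 × I, w (X i) = ∏ v, w (X (0, v)) := by
    rw [Fintype.prod_prod_type]
    simp
  rw [h]
  rfl

lemma flip_sum {A : Type} [Fintype A] (bit : A → Bool) (flip : Equiv.Perm A)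
    (hf : ∀ a, bit (flip a) = !bit a) (β : Prop) [Decidable β]
    [∀ a, Decidable (β ↔ bit a = true)] :
    ∑ a, (if (β ↔ bit a = true) then (1 : ℝ) else 0) = (Fintype.card A : ℝ) / 2 := by
  have h1 : ∑ a, (if (β ↔ bit a = true) then (1 : ℝ) else 0) =
      ∑ a, (if (β ↔ bit (flip a) = true) then (1 : ℝ) else 0) :=
    (Equiv.sum_comp flip (fun a => if (β ↔ bit a = true) then (1 : ℝ) else 0)).symm
  have h2 : ∑ a, (if (β ↔ bit a = true) then (1 : ℝ) else 0) +
      ∑ a, (if (β ↔ bit (flip a) = true) then (1 : ℝ) else 0) = (Fintype.card A : ℝ) := by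
    rw [← Finset.sum_add_distrib]
    have h3 : ∀ a, (if (β ↔ bit a = true) then (1 : ℝ) else 0) +
        (if (β ↔ bit (flip a) = true) then (1 : ℝ) else 0) = 1 := by
      intro a
      have h5 := hf a
      rcases Bool.eq_false_or_eq_true (bit a) with h6 | h6 <;> rw [h6] at h5 <;>
        by_cases hβ : β <;> simp [hβ, h5, h6]
    rw [Finset.sum_congr rfl fun a _ => h3 a, Finset.sum_const, Finset.card_univ, nsmul_eq_mul,
      mul_one]
  linarith

open Classical in
/-- The prediction of the hidden bit of a planted solution. -/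
lemma hid_core {m r N : ℕ} {V : Type} (hN : 1 ≤ N)
    (s : Fin m → Fin (r + 1) → Fin m) (hs : ∀ i, s i 0 = i) {p : ℝ} (hp0 : 0 ≤ p) (hp1 : p ≤ 1)
    (out : ((Fin 1 × (Fin m × (Fin (r + 1) → Fin N))) → Bool) → V) (acc : V → Prop) {B : ℝ}
    (hB : Ex (vp p) (fun X => ∑ κ : Fin 1 × (Fin m → Fin N),
      if out X ≠ out (plant (vi s κ) univ X) then (1 : ℝ) else 0) ≤ B)
    (bit : (Fin m → Fin N) → Bool) (flip : Equiv.Perm (Fin m → Fin N))
    (hf : ∀ a, bit (flip a) = !bit a) :
    ∑ y : ((Fin 1 × (Fin m × (Fin (r + 1) → Fin N))) → Bool) × (Fin 1 × (Fin m → Fin N)),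
      ((∏ i, vp p (y.1 i)) * (1 / (N : ℝ) ^ m)) *
      (if ((acc (out (plant (vi s y.2) univ y.1)) ↔ bit y.2.2 = true) ∨
        (Sols s (fun v => plant (vi s y.2) univ y.1 (0, v))).ncard ≠ 1)
        then (1 : ℝ) else 0) ≤
      1 / 2 + B / (N : ℝ) ^ m + ((1 + N * p) ^ m - 1) := by
  have hN0 : (0 : ℝ) < N := by exact_mod_cast hN
  have hNp : (0 : ℝ) < (N : ℝ) ^ m := by positivity
  have hμ : ∀ X : (Fin 1 × (Fin m × (Fin (r + 1) → Fin N))) → Bool,
      0 ≤ ∏ i, vp p (X i) := fun X => Finset.prod_nonneg fun i _ => vp_nonneg hp0 hp1 _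
  have hpt : ∀ y : ((Fin 1 × (Fin m × (Fin (r + 1) → Fin N))) → Bool) × (Fin 1 × (Fin m → Fin N)),
      (if ((acc (out (plant (vi s y.2) univ y.1)) ↔ bit y.2.2 = true) ∨
        (Sols s (fun v => plant (vi s y.2) univ y.1 (0, v))).ncard ≠ 1)
        then (1 : ℝ) else 0) ≤
      (if (acc (out y.1) ↔ bit y.2.2 = true) then (1 : ℝ) else 0) +
      ((if out y.1 ≠ out (plant (vi s y.2) univ y.1) then (1 : ℝ) else 0) +
      (if (Sols s (fun v => plant (vi s y.2) univ y.1 (0, v))).ncard ≠ 1 then (1 : ℝ) else 0)) := by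
    intro y
    have g1 : (0 : ℝ) ≤ (if (acc (out y.1) ↔ bit y.2.2 = true) then (1 : ℝ) else 0) := by
      split_ifs <;> norm_num
    have g2 : (0 : ℝ) ≤ (if out y.1 ≠ out (plant (vi s y.2) univ y.1) then (1 : ℝ) else 0) := by
      split_ifs <;> norm_num
    have g3 : (0 : ℝ) ≤ (if (Sols s (fun v => plant (vi s y.2) univ y.1 (0, v))).ncard ≠ 1
      then (1 : ℝ) else 0) := by
      split_ifs <;> norm_num
    by_cases h1 : (Sols s (fun v => plant (vi s y.2) univ y.1 (0, v))).ncard ≠ 1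
    · rw [if_pos (Or.inr h1), if_pos h1] at *
      linarith
    · by_cases h2 : out y.1 ≠ out (plant (vi s y.2) univ y.1)
      · rw [if_pos h2]
        have g4 : (if ((acc (out (plant (vi s y.2) univ y.1)) ↔ bit y.2.2 = true) ∨
          (Sols s (fun v => plant (vi s y.2) univ y.1 (0, v))).ncard ≠ 1)
          then (1 : ℝ) else 0) ≤ 1 := by
          split_ifs <;> norm_num
        linarith
      · push Not at h2
        by_cases h3 : (acc (out (plant (vi s y.2) univ y.1)) ↔ bit y.2.2 = true)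
        · have h4 : (acc (out y.1) ↔ bit y.2.2 = true) := by rw [h2]; exact h3
          rw [if_pos (Or.inl h3), if_pos h4]
          linarith
        · rw [if_neg (by rintro (h | h) <;> contradiction)]
          linarith
  refine (Finset.sum_le_sum fun y _ => mul_le_mul_of_nonneg_left (hpt y)
    (mul_nonneg (hμ y.1) (by positivity))).trans ?_
  simp only [mul_add, Finset.sum_add_distrib]
  have hμ1 : ∑ X : (Fin 1 × (Fin m × (Fin (r + 1) → Fin N))) → Bool, ∏ i, vp p (X i) = 1 := by
    have := Ex_const (I := Fin 1 × (Fin m × (Fin (r + 1) → Fin N))) (vp_sum p) (1 : ℝ)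
    unfold Ex at this
    simpa using this
  have t1 : ∑ y : ((Fin 1 × (Fin m × (Fin (r + 1) → Fin N))) → Bool) ×
      (Fin 1 × (Fin m → Fin N)), ((∏ i, vp p (y.1 i)) * (1 / (N : ℝ) ^ m)) *
      (if (acc (out y.1) ↔ bit y.2.2 = true) then (1 : ℝ) else 0) = 1 / 2 := by
    rw [Fintype.sum_prod_type]
    have h1 : ∀ X : (Fin 1 × (Fin m × (Fin (r + 1) → Fin N))) → Bool,
        ∑ κ : Fin 1 × (Fin m → Fin N), ((∏ i, vp p (X i)) * (1 / (N : ℝ) ^ m)) *
        (if (acc (out X) ↔ bit κ.2 = true) then (1 : ℝ) else 0) =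
        (∏ i, vp p (X i)) * (1 / 2) := by
      intro X
      rw [← Finset.mul_sum, Fintype.sum_prod_type]
      have h2 := flip_sum bit flip hf (acc (out X))
      have h3 : ∑ _x : Fin 1, ∑ a : Fin m → Fin N,
          (if (acc (out X) ↔ bit a = true) then (1 : ℝ) else 0) = (N : ℝ) ^ m / 2 := by
        rw [Finset.sum_const, Finset.card_univ, Fintype.card_fin, one_smul, h2, Fintype.card_fun,
          Fintype.card_fin, Fintype.card_fin]
        push_cast
        rfl
      dsimp only
      rw [h3]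
      field_simp
    rw [Finset.sum_congr rfl fun X _ => h1 X, ← Finset.sum_mul, hμ1, one_mul]
  have t2 : ∑ y : ((Fin 1 × (Fin m × (Fin (r + 1) → Fin N))) → Bool) ×
      (Fin 1 × (Fin m → Fin N)), ((∏ i, vp p (y.1 i)) * (1 / (N : ℝ) ^ m)) *
      (if out y.1 ≠ out (plant (vi s y.2) univ y.1) then (1 : ℝ) else 0) ≤
      B / (N : ℝ) ^ m := by
    rw [Fintype.sum_prod_type]
    refine le_trans (le_of_eq ?_) (div_le_div_of_nonneg_right hB hNp.le)
    unfold Ex
    rw [Finset.sum_div]
    refine Finset.sum_congr rfl fun X _ => ?_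
    dsimp only
    rw [← Finset.mul_sum]
    ring
  have t3 : ∑ y : ((Fin 1 × (Fin m × (Fin (r + 1) → Fin N))) → Bool) ×
      (Fin 1 × (Fin m → Fin N)), ((∏ i, vp p (y.1 i)) * (1 / (N : ℝ) ^ m)) *
      (if (Sols s (fun v => plant (vi s y.2) univ y.1 (0, v))).ncard ≠ 1 then (1 : ℝ) else 0) ≤
      ((1 + N * p) ^ m - 1) := by
    rw [Fintype.sum_prod_type_right]
    have h1 : ∀ κ : Fin 1 × (Fin m → Fin N),
        ∑ X : (Fin 1 × (Fin m × (Fin (r + 1) → Fin N))) → Bool,
        ((∏ i, vp p (X i)) * (1 / (N : ℝ) ^ m)) *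
        (if (Sols s (fun v => plant (vi s κ) univ X (0, v))).ncard ≠ 1 then (1 : ℝ) else 0) ≤
        (1 / (N : ℝ) ^ m) * ((1 + N * p) ^ m - 1) := by
      intro κ
      have h2 := other_prob s hs hp0 hp1 κ.2
      have h3 := Ex_one (vp p) (fun X : (Fin m × (Fin (r + 1) → Fin N)) → Bool =>
        if (Sols s (plant (vr s κ.2) univ X)).ncard ≠ 1 then (1 : ℝ) else 0)
      have h4 : ∀ X : (Fin 1 × (Fin m × (Fin (r + 1) → Fin N))) → Bool,
          (fun v => plant (vi s κ) univ X (0, v)) = plant (vr s κ.2) univ (fun v => X (0, v)) := by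
        intro X
        funext v
        unfold plant
        congr 1
        rw [decide_eq_decide]
        have h0 : κ.1 = 0 := Subsingleton.elim _ _
        constructor
        · rintro ⟨j, hj, hj2⟩
          exact ⟨j, hj, (Prod.mk.inj hj2).2⟩
        · rintro ⟨j, hj, hj2⟩
          exact ⟨j, hj, Prod.ext h0 hj2⟩
      refine le_trans (le_of_eq ?_) (mul_le_mul_of_nonneg_left (h3.trans_le h2)
        (by positivity : (0 : ℝ) ≤ 1 / (N : ℝ) ^ m))
      unfold Ex
      rw [Finset.mul_sum]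
      refine Finset.sum_congr rfl fun X _ => ?_
      rw [h4 X]
      ring
    refine (Finset.sum_le_sum fun κ _ => h1 κ).trans (le_of_eq ?_)
    rw [Finset.sum_const, Finset.card_univ, Fintype.card_prod, Fintype.card_fun, Fintype.card_fin,
      Fintype.card_fin, Fintype.card_fin, nsmul_eq_mul, one_mul]
    push_cast
    field_simp
  linarith

end Pool.Agent.W964.Wd
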