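import Mathlib
import Pool.Agent.W964.Pram.Uniq
import Pool.Agent.H592R3.Cnf

/-!
The encoding of the constraint satisfaction problems as formulas: the value of a given variable in
the unique satisfying assignment.
-/

set_option linter.unusedSectionVars false

namespace Pool.Agent.W964.Wd

open Finset H568R2 H592R3 SmallDepth Pool.Agent.W964.Pram

/-- The formulas. -/
theorem enc_hid (m B ℓ n w M : ℕ) (hm : 0 < m) (hℓ : 0 < ℓ) (hn0 : 0 < n)
    (hBw : B * ℓ ≤ w) (hw2 : 2 ≤ w) (he : m * ℓ ≤ n) (hM : m * (2 ^ ℓ) ^ B + n ≤ M)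
    (s : Fin m → Fin B → Fin m) (v : Fin n) :
    ∃ (σ : ((Fin m × (Fin B → Fin (2 ^ ℓ))) → Bool) → (Fin M × Fin n × Bool → Bool))
      (bit : (Fin m → Fin (2 ^ ℓ)) → Bool) (flip : Equiv.Perm (Fin m → Fin (2 ^ ℓ))),
      (∀ j, Junta 1 (fun x => σ x j)) ∧ (∀ X, WidthLe (σ X) w) ∧
      (∀ a, bit (flip a) = !bit a) ∧
      (∀ X a, Sols s X = {a} → (∃! α, Models (σ X) α) ∧
        ((∃ α, Models (σ X) α ∧ α v = true) ↔ bit a = true)) := by
  classical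
  obtain ⟨e₀⟩ : Nonempty ((Fin m × Fin ℓ) ↪ Fin n) := by
    apply Function.Embedding.nonempty_of_card_le
    rw [Fintype.card_prod, Fintype.card_fin, Fintype.card_fin, Fintype.card_fin]
    exact he
  obtain ⟨e, hev⟩ : ∃ e : (Fin m × Fin ℓ) ↪ Fin n, e (⟨0, hm⟩, ⟨0, hℓ⟩) = v := by
    refine ⟨e₀.trans (Equiv.swap (e₀ (⟨0, hm⟩, ⟨0, hℓ⟩)) v).toEmbedding, ?_⟩
    rw [Function.Embedding.trans_apply, Equiv.coe_toEmbedding, Equiv.swap_apply_left]
  obtain ⟨dec⟩ : Nonempty ((Fin ℓ → Bool) ≃ Fin (2 ^ ℓ)) :=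
    ⟨Fintype.equivFinOfCardEq (by simp)⟩
  obtain ⟨π, hπ⟩ : ∃ π : Fin M → (Fin m × (Fin B → Fin (2 ^ ℓ))) ⊕ Fin n,
      Function.Surjective π := by
    have : Nonempty ((Fin m × (Fin B → Fin (2 ^ ℓ))) ⊕ Fin n) := ⟨Sum.inr ⟨0, hn0⟩⟩
    obtain ⟨g⟩ : Nonempty (((Fin m × (Fin B → Fin (2 ^ ℓ))) ⊕ Fin n) ↪ Fin M) := by
      apply Function.Embedding.nonempty_of_card_le
      rw [Fintype.card_sum, Fintype.card_prod, Fintype.card_fun, Fintype.card_fin,
        Fintype.card_fin, Fintype.card_fin, Fintype.card_fin, Fintype.card_fin]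
      exact hM
    exact ⟨Function.invFun g, Function.invFun_surjective g.injective⟩
  obtain ⟨fl, hfl⟩ : ∃ fl : (Fin m → Fin (2 ^ ℓ)) → (Fin m → Fin (2 ^ ℓ)),
      fl = fun a => Function.update a ⟨0, hm⟩ (dec (Function.update (dec.symm (a ⟨0, hm⟩))
        ⟨0, hℓ⟩ (!(dec.symm (a ⟨0, hm⟩) ⟨0, hℓ⟩)))) := ⟨_, rfl⟩
  have hinv : Function.Involutive fl := by
    intro a
    rw [hfl]
    funext i
    by_cases hi : i = ⟨0, hm⟩
    · subst hi
      simp
    · simp [Function.update_of_ne hi]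
  refine ⟨fun X => cnfOf s e dec ⟨0, hn0⟩ π X, fun a => dec.symm (a ⟨0, hm⟩) ⟨0, hℓ⟩,
    hinv.toPerm, cnfOf_junta s e dec ⟨0, hn0⟩ π, fun X => cnfOf_width hBw hw2 X, ?_, ?_⟩
  · intro a
    show dec.symm (fl a ⟨0, hm⟩) ⟨0, hℓ⟩ = _
    rw [hfl]
    simp
  · intro X a ha
    have hone : AtMostOne s X := by
      intro b c hb hc
      have h1 : b ∈ Sols s X := hb
      have h2 : c ∈ Sols s X := hc
      rw [ha, Set.mem_singleton_iff] at h1 h2
      rw [h1, h2]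
    have hsat : ∃ α, Models (cnfOf s e dec ⟨0, hn0⟩ π X) α := by
      rw [cnfOf_sat hπ]
      have h1 : a ∈ Sols s X := by rw [ha]; exact Set.mem_singleton a
      exact ⟨a, h1⟩
    have hval : ∀ α, Models (cnfOf s e dec ⟨0, hn0⟩ π X) α →
        α v = dec.symm (a ⟨0, hm⟩) ⟨0, hℓ⟩ := by
      intro α hα
      rw [cnfOf_models hπ] at hα
      have h1 : (fun v => dec (fun i => α (e (v, i)))) ∈ Sols s X := hα.2
      rw [ha, Set.mem_singleton_iff] at h1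
      rw [← h1, Equiv.symm_apply_apply, hev]
    obtain ⟨α, hα⟩ := hsat
    refine ⟨⟨α, hα, fun β hβ => cnfOf_unique hπ X hone β α hβ hα⟩, ?_⟩
    constructor
    · rintro ⟨β, hβ, hβv⟩
      show dec.symm (a ⟨0, hm⟩) ⟨0, hℓ⟩ = true
      rw [← hval β hβ]
      exact hβv
    · intro hb
      refine ⟨α, hα, ?_⟩
      rw [hval α hα]
      exact hb

end Pool.Agent.W964.Wd
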