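import Mathlib
import Pool.Agent.W964.Wd.Hid.Core
import Pool.Agent.W964.Wd.Hid.Enc
import Pool.Agent.W964.Wd.Gen.Asym
import Pool.Agent.W964.Wd.Sat
import Pool.Agent.W964.Wd.Alt.Main

/-!
The values of the variables in the unique satisfying assignment of a formula are hard for parallel
machines.
-/

set_option linter.unusedSectionVars false

namespace Pool.Agent.W964.Wd

open Finset Filter H568R2 H592R3 SmallDepth Pool.Agent.W964.Pram

open Classical in
/-- Randomized machines do not predict a hidden bit of the unique solution. -/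
theorem hid_rand (ε : ℝ) (hε : 0 < ε) (K : ℕ) :
    ∃ Q : ℕ, 6 ≤ Q ∧ ∃ C : ℝ, 0 < C ∧
    ∀ n T w : ℕ, 2 ≤ n → 1 ≤ T → C * (T * Real.log n) ≤ w → w ≤ n →
    ∃ b m' : ℕ, 1 ≤ b ∧ 2 ≤ m' ∧ ar Q * (2 * (3 * T) * b) + 1 ≤ w ∧
      Q * m' * (2 * (3 * T) * b + 1) ≤ n ∧
      ∃ s : Fin (Q * m') → Fin (ar Q) → Fin (Q * m'),
      ∀ (W J : Type) (σ : (Vr Q T b m' → Bool) → (J → W)), (∀ j, One (fun x => σ x j)) →
      ∀ (bit : (Fin (Q * m') → Fin (dom T b)) → Bool)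
        (flip : Equiv.Perm (Fin (Q * m') → Fin (dom T b))), (∀ a, bit (flip a) = !bit a) →
      ∀ (P : ℕ) (R : RandMachine W J P), (P : ℝ) ≤ 2 ^ ((1 - ε) * n) → R.Lists (2 ^ (K * n)) →
        ∃ (X : Vr Q T b m' → Bool) (a : Fin (Q * m') → Fin (dom T b)), Sols s X = {a} ∧
          R.success T (σ X) (bit a = true) ≤ 1 / 2 + (2 : ℝ) ^ (-((w : ℝ) / C)) := by
  obtain ⟨ε', hε'⟩ : ∃ ε' : ℝ, ε' = min ε (1 / 2) := ⟨_, rfl⟩
  have hε0 : 0 < ε' := by rw [hε']; exact lt_min hε (by norm_num)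
  have hε1 : ε' ≤ 1 / 2 := by rw [hε']; exact min_le_right _ _
  have hε2 : ε' ≤ ε := by rw [hε']; exact min_le_left _ _
  obtain ⟨Q, hQ6, C', hC', hpar⟩ := gen_hard ε' hε0 hε1 K
  obtain ⟨A₀, hA₀⟩ : ∃ A₀ : ℝ, A₀ = ((ar Q : ℕ) : ℝ) := ⟨_, rfl⟩
  have hA₀1 : 1 ≤ A₀ := by
    rw [hA₀]
    have : 1 ≤ ar Q := by unfold ar; omega
    exact_mod_cast this
  obtain ⟨C, hC⟩ : ∃ C : ℝ, C = C' + 128 * A₀ := ⟨_, rfl⟩
  have hC0 : 0 < C := by rw [hC]; positivity
  have hCA : 128 * A₀ ≤ C := by rw [hC]; linarith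
  refine ⟨Q, hQ6, C, hC0, ?_⟩
  intro n T w hn hT hw hwn
  have hnR : (2 : ℝ) ≤ n := by exact_mod_cast hn
  have hlogn : 0 ≤ Real.log n := Real.log_nonneg (by linarith)
  have hTR : (1 : ℝ) ≤ T := by exact_mod_cast hT
  obtain ⟨b, m', hb, hm', hB2, hBw, hQn, hexp, hwb, s, hs, hMach⟩ := hpar n T w hn hT (by
    refine le_trans ?_ hw
    apply mul_le_mul_of_nonneg_right _ (by positivity)
    rw [hC]
    linarith) hwn
  refine ⟨b, m', hb, hm', hBw, hQn, s, ?_⟩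
  intro W J σ hσ bit flip hflip P R hP hR
  obtain ⟨t, ht⟩ : ∃ t, t = 3 * T * b := ⟨_, rfl⟩
  have hQmn : Q * m' ≤ n := by
    refine le_trans ?_ hQn
    exact Nat.le_mul_of_pos_right _ (by omega)
  -- arithmetic
  have har := cnt_arith n w t A₀ C ε' hA₀1 hε1 hCA hn
    (le_trans (by
      have : 1 * Real.log n ≤ T * Real.log n := mul_le_mul_of_nonneg_right hTR hlogn
      rw [one_mul] at this
      exact mul_le_mul_of_nonneg_left this hC0.le) hw) hwn (by
      rw [hA₀, ht]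
      have : ((w : ℕ) : ℝ) ≤ ((8 * ar Q * (3 * T * b) : ℕ) : ℝ) := by exact_mod_cast hwb
      push_cast at this ⊢
      linarith) (Q * m') hQmn (n - 1) (by omega)
  obtain ⟨har1, har2⟩ := har
  obtain ⟨σ', hσ'⟩ : ∃ σ' : (Fin 1 × Vr Q T b m' → Bool) → (J → W),
      σ' = fun X => σ (fun v => X (0, v)) := ⟨_, rfl⟩
  have hσj : ∀ j, One (fun x => σ' x j) := by
    intro j
    rw [hσ']
    rcases hσ j with ⟨a, h⟩ | ⟨i, g, h⟩
    · exact Or.inl ⟨a, fun x => h _⟩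
    · exact Or.inr ⟨(0, i), g, fun x => h _⟩
  obtain ⟨p, hp⟩ : ∃ p : ℝ, p = Pram.dens T b := ⟨_, rfl⟩
  have hp0 : 0 ≤ p := by rw [hp]; unfold Pram.dens; positivity
  have hp1 : p ≤ 1 := by
    have h1 : (1 : ℝ) ≤ ((2 : ℝ) ^ (3 * T * b)) ^ 3 := one_le_pow₀ (one_le_pow₀ (by norm_num))
    have h2 : 1 / ((2 : ℝ) ^ (3 * T * b)) ^ 3 ≤ 1 := by
      rw [div_le_one (by positivity)]; exact h1
    rw [hp]
    unfold Pram.dens
    linarith
  have hP' : (P : ℝ) ≤ 2 ^ ((1 - ε') * n) := by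
    refine hP.trans ?_
    apply Real.rpow_le_rpow_of_exponent_le (by norm_num)
    nlinarith
  rw [← hp] at hMach
  have hNN : 1 ≤ dom T b := by unfold dom; exact Nat.one_le_two_pow
  obtain ⟨B, hB⟩ : ∃ B : ℝ, B = 3 * (((dom T b : ℕ) : ℝ) ^ (Q * m') / 2 ^ (3 * T * b)) :=
    ⟨_, rfl⟩
  have hNp : (0 : ℝ) < (((dom T b : ℕ) : ℝ)) ^ (Q * m') := by unfold dom; positivity
  obtain ⟨η, hη⟩ : ∃ η : ℝ, η = 1 / 2 + B / ((dom T b : ℕ) : ℝ) ^ (Q * m') +
    ((1 + ((dom T b : ℕ) : ℝ) * p) ^ (Q * m') - 1) := ⟨_, rfl⟩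
  -- the bound for one machine
  have hcore : ∀ ω, ∑ y : ((Fin 1 × Vr Q T b m' → Bool) ×
      (Fin 1 × (Fin (Q * m') → Fin (dom T b)))),
      ((∏ i, vp p (y.1 i)) * (1 / ((dom T b : ℕ) : ℝ) ^ (Q * m'))) *
      (if ((((R.mach ω).answer T (σ' (plant (vi s y.2) univ y.1)) = true) ↔ bit y.2.2 = true) ∨
        (Sols s (fun v => plant (vi s y.2) univ y.1 (0, v))).ncard ≠ 1)
        then (1 : ℝ) else 0) ≤ η := by
    intro ω
    have h1 := hMach 1 le_rfl Nat.one_le_two_pow W J σ' hσj P (R.mach ω) hP' (hR ω)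
    have h2 := hid_core (N := dom T b) (r := 2 * Q ^ 2 + 14) hNN s hs hp0 hp1
      (fun X => (R.mach ω).result T (σ' X))
      (fun v => (R.mach ω).accept v = true) (B := B) (by
        rw [hB]
        exact h1) bit flip hflip
    rw [← hη] at h2
    refine le_trans (le_of_eq ?_) h2
    exact Finset.sum_congr rfl fun y _ => by congr!
  let _ := R.fin
  obtain ⟨y, hy⟩ := avg_exists (fun y : ((Fin 1 × Vr Q T b m' → Bool) ×
      (Fin 1 × (Fin (Q * m') → Fin (dom T b)))) =>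
      ((∏ i, vp p (y.1 i)) * (1 / ((dom T b : ℕ) : ℝ) ^ (Q * m'))))
      (fun y => mul_nonneg
    (Finset.prod_nonneg fun i _ => vp_nonneg hp0 hp1 _) (by positivity)) (by
      rw [Fintype.sum_prod_type]
      dsimp only
      have hcard : ∑ _κ : Fin 1 × (Fin (Q * m') → Fin (dom T b)),
          (1 / ((dom T b : ℕ) : ℝ) ^ (Q * m')) = 1 := by
        rw [Finset.sum_const, Finset.card_univ, Fintype.card_prod, Fintype.card_fun,
          Fintype.card_fin, Fintype.card_fin, Fintype.card_fin, nsmul_eq_mul, one_mul]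
        push_cast
        field_simp
      have hμ1 : ∑ X : Fin 1 × Vr Q T b m' → Bool, ∏ i, vp p (X i) = 1 := by
        have := Ex_const (I := Fin 1 × Vr Q T b m') (vp_sum p) (1 : ℝ)
        unfold Ex at this
        simpa using this
      refine Eq.trans ?_ hμ1
      refine Finset.sum_congr rfl fun X _ => ?_
      rw [← Finset.mul_sum, hcard, mul_one])
    R.prob R.nonneg R.total
    (fun ω y => ((((R.mach ω).answer T (σ' (plant (vi s y.2) univ y.1)) = true) ↔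
        bit y.2.2 = true) ∨
        (Sols s (fun v => plant (vi s y.2) univ y.1 (0, v))).ncard ≠ 1)) η
    (fun ω => le_trans (le_of_eq (Finset.sum_congr rfl fun y _ => by congr!)) (hcore ω))
  -- the bound for `η`
  have hηle : η ≤ 1 / 2 + (2 : ℝ) ^ (-((w : ℝ) / C)) / 2 := by
    have h9 : B / ((dom T b : ℕ) : ℝ) ^ (Q * m') = 3 / 2 ^ t := by
      rw [hB, ht]
      field_simp
    have hx : (((dom T b : ℕ) : ℝ)) * p ≤ 1 / 2 ^ t / 2 := by
      rw [hp, ht]
      have h3 : (0 : ℝ) < 2 ^ (3 * T * b) := by positivity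
      have h4 : (((dom T b : ℕ) : ℝ)) = ((2 : ℝ) ^ (3 * T * b)) ^ 2 := by
        unfold dom
        push_cast
        rw [← pow_mul]; congr 1; ring
      rw [h4]
      unfold Pram.dens
      apply le_of_eq
      field_simp
    have hx0 : 0 ≤ (((dom T b : ℕ) : ℝ)) * p := by positivity
    have hmt : ((Q * m' : ℕ) : ℝ) ≤ 2 ^ t := by
      refine le_trans ?_ har2
      exact_mod_cast hQmn
    have hmx : ((Q * m' : ℕ) : ℝ) * ((((dom T b : ℕ) : ℝ)) * p) ≤ 1 := by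
      calc ((Q * m' : ℕ) : ℝ) * ((((dom T b : ℕ) : ℝ)) * p)
          ≤ 2 ^ t * (1 / 2 ^ t / 2) := by gcongr
        _ = 1 / 2 := by field_simp
        _ ≤ 1 := by norm_num
    have h2 := pow_sub_one_le (Q * m') ((((dom T b : ℕ) : ℝ)) * p) hx0 hmx
    have h3 : 2 * (((Q * m' : ℕ) : ℝ) * ((((dom T b : ℕ) : ℝ)) * p)) ≤
        ((Q * m' : ℕ) : ℝ) * (1 / 2 ^ t) := by
      calc 2 * (((Q * m' : ℕ) : ℝ) * ((((dom T b : ℕ) : ℝ)) * p))
          ≤ 2 * (((Q * m' : ℕ) : ℝ) * (1 / 2 ^ t / 2)) := by gcongr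
        _ = _ := by ring
    have h4 : (0 : ℝ) < (2 : ℝ) ^ (-((1 - ε') * (n - 1 : ℕ) / 2)) := by positivity
    rw [hη, h9]
    linarith
  have hw0 : (2 : ℝ) ^ (-((w : ℝ) / C)) < 1 := by
    apply Real.rpow_lt_one_of_one_lt_of_neg (by norm_num)
    have h1 : 0 < (w : ℝ) := by
      have : 1 ≤ w := by omega
      exact_mod_cast this
    have : 0 < (w : ℝ) / C := by positivity
    linarith
  have hw1 : (0 : ℝ) < (2 : ℝ) ^ (-((w : ℝ) / C)) := by positivity
  obtain ⟨X, hX⟩ : ∃ X : Vr Q T b m' → Bool,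
      X = fun v => plant (vi s y.2) univ y.1 (0, v) := ⟨_, rfl⟩
  rw [← hX] at hy
  by_cases hone : (Sols s X).ncard = 1
  · have ha : y.2.2 ∈ Sols s X := by
      intro c
      rw [hX]
      simp only [plant, Bool.or_eq_true, decide_eq_true_eq]
      refine Or.inl ⟨c, Finset.mem_univ _, ?_⟩
      unfold vi
      have h0 : y.2.1 = 0 := Subsingleton.elim _ _
      rw [h0]
      rfl
    obtain ⟨a', ha'⟩ := Set.ncard_eq_one.1 hone
    have haa : y.2.2 = a' := by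
      rw [ha', Set.mem_singleton_iff] at ha
      exact ha
    refine ⟨X, y.2.2, by rw [ha', haa], ?_⟩
    have h1 : R.success T (σ X) (bit y.2.2 = true) ≤ η := by
      refine le_trans (le_of_eq ?_) hy
      unfold RandMachine.success
      refine Finset.sum_congr rfl fun ω _ => ?_
      have h2 : ((((R.mach ω).answer T (σ' (plant (vi s y.2) univ y.1)) = true) ↔
          bit y.2.2 = true) ∨ (Sols s X).ncard ≠ 1) ↔
          (((R.mach ω).answer T (σ X) = true) ↔ bit y.2.2 = true) := by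
        have h3 : σ' (plant (vi s y.2) univ y.1) = σ X := by
          rw [hσ', hX]
        rw [h3]
        constructor
        · rintro (h | h)
          · exact h
          · exact absurd hone h
        · exact Or.inl
      by_cases h4 : (((R.mach ω).answer T (σ X) = true) ↔ bit y.2.2 = true)
      · rw [if_pos h4, if_pos (h2.2 h4)]
      · rw [if_neg h4, if_neg (fun h => h4 (h2.1 h))]
    linarith
  · exfalso
    have h1 : ∑ ω, R.prob ω ≤ η := by
      refine le_trans (le_of_eq ?_) hy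
      refine Finset.sum_congr rfl fun ω _ => ?_
      rw [if_pos (Or.inr hone)]
    have h2 : ∑ ω, R.prob ω = 1 := R.total
    rw [h2] at h1
    linarith

/-- The value of a variable in the unique satisfying assignment. -/
theorem hid_sat (ε : ℝ) (hε : 0 < ε) (K : ℕ) : ∃ C : ℝ, 0 < C ∧
    ∀ n T w M : ℕ, 2 ≤ n → 1 ≤ T → C * (T * Real.log n) ≤ w → w ≤ n → n * 2 ^ w ≤ M →
    ∀ (v : Fin n) (P : ℕ) (R : RandMachine Bool (Fin M × Fin n × Bool) P),
      (P : ℝ) ≤ 2 ^ ((1 - ε) * n) → R.Lists (2 ^ (K * n)) →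
      ∃ x, WidthLe x w ∧ (∃! α, Models x α) ∧
        R.success T x (∃ α, Models x α ∧ α v = true) ≤ 1 / 2 + (2 : ℝ) ^ (-((w : ℝ) / C)) := by
  obtain ⟨Q, hQ6, C, hC, H⟩ := hid_rand ε hε K
  refine ⟨C, hC, ?_⟩
  intro n T w M hn hT hw hwn hM v P R hP hR
  obtain ⟨b, m', hb, hm', hBw, hQn, s, H2⟩ := H n T w hn hT hw hwn
  have hdt : 1 ≤ (3 * T) * b := Nat.one_le_iff_ne_zero.2 (by positivity)
  have hℓ2 : 2 ≤ 2 * (3 * T) * b := by
    have : 2 * (3 * T) * b = 2 * ((3 * T) * b) := by ring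
    omega
  have hcard1 : Q * m' * (2 * (3 * T) * b) ≤ n := by
    refine le_trans ?_ hQn
    exact Nat.mul_le_mul_left _ (by omega)
  have hB1 : 2 ≤ ar Q * (2 * (3 * T) * b) := by
    calc 2 ≤ 2 * (3 * T) * b := hℓ2
      _ = 1 * (2 * (3 * T) * b) := (one_mul _).symm
      _ ≤ _ := Nat.mul_le_mul_right _ (by unfold ar; omega)
  have hcard2 : Q * m' * (2 ^ (2 * (3 * T) * b)) ^ (ar Q) + n ≤ M := by
    refine le_trans ?_ hM
    have h1 : (2 ^ (2 * (3 * T) * b)) ^ (ar Q) ≤ 2 ^ w := by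
      rw [← pow_mul]
      apply Nat.pow_le_pow_right (by norm_num)
      rw [mul_comm]; omega
    have h2 : 2 * (Q * m') ≤ n := by
      refine le_trans ?_ hcard1
      rw [mul_comm]
      exact Nat.mul_le_mul_left _ hℓ2
    have h3 : 2 ≤ 2 ^ w := by
      calc 2 = 2 ^ 1 := (pow_one 2).symm
        _ ≤ 2 ^ w := Nat.pow_le_pow_right (by norm_num) (by omega)
    have h4 : 2 * (Q * m' * (2 ^ (2 * (3 * T) * b)) ^ (ar Q)) ≤ n * 2 ^ w := by
      calc 2 * (Q * m' * (2 ^ (2 * (3 * T) * b)) ^ (ar Q)) =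
          (2 * (Q * m')) * (2 ^ (2 * (3 * T) * b)) ^ (ar Q) := by ring
        _ ≤ n * 2 ^ w := Nat.mul_le_mul h2 h1
    have h5 : 2 * n ≤ n * 2 ^ w := by
      rw [mul_comm]; exact Nat.mul_le_mul_left _ h3
    omega
  obtain ⟨σ, bit, flip, hσ, hσw, hflip, hσs⟩ := enc_hid (Q * m') (ar Q) (2 * (3 * T) * b) n w M
    (by positivity) (by omega) (by omega) (by omega) (by omega) hcard1 hcard2 s v
  obtain ⟨X, a, ha, hX⟩ := H2 Bool (Fin M × Fin n × Bool) σ (fun j => One.of_junta (hσ j))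
    bit flip hflip P R hP hR
  obtain ⟨h1, h2⟩ := hσs X a ha
  refine ⟨σ X, hσw X, h1, ?_⟩
  have h3 : (∃ α, Models (σ X) α ∧ α v = true) = (bit a = true) := propext h2
  rw [h3]
  exact hX

end Pool.Agent.W964.Wd
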