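import Mathlib
import Pool.Agent.W964.Wd.Upd
import Pool.Agent.W964.Wd.Alt.Defs
import Pool.Agent.H592R3.Defs

/-!
Machines that check a guessed assignment from a given list.
-/

set_option linter.unusedSectionVars false

namespace Pool.Agent.W964.Wd

open Finset SmallDepth

/-- The states of the processors that check a guessed assignment. -/
inductive Ck2 (n M : ℕ) : Type
  | test (c : Fin M) (α : Fin n → Bool) : Ck2 n M
  | done (β : Bool) : Ck2 n M

/-- A machine that checks a guessed assignment from the list `ea`. -/
@[reducible] noncomputable def checker2 (n M k : ℕ) (ea : Fin k → (Fin n → Bool)) :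
    Guess Bool (Fin M × Fin n × Bool) M (Choices [(true, k)]) where
  base :=
    { Q := Ck2 n M
      A := Unit
      V := Bool
      word := fun b => b
      blank := true
      start := fun _ => Ck2.done true
      query := fun q => match q with
        | Ck2.test c α => (List.finRange n).map (fun v => Sum.inl (c, v, α v))
        | Ck2.done _ => []
      test := fun _ v => v
      next := fun q o => match q with
        | Ck2.test _ _ => Ck2.done o.isSome
        | Ck2.done β => Ck2.done β
      write := fun q => match q with
        | Ck2.done false => some (Sum.inr (), false)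
        | _ => none
      out := Sum.inr ()
      accept := fun v => v }
  init := fun γ p => Ck2.test p (ea γ.2)

lemma checker2_answer (n M k : ℕ) (ea : Fin k → (Fin n → Bool)) (i : Fin k)
    (x : Fin M × Fin n × Bool → Bool) :
    ((checker2 n M k ea).fix ((), i)).answer 1 x = true ↔ Models x (ea i) := by
  classical
  have h1 : ∀ p : Fin M, (((checker2 n M k ea).fix ((), i)).run x (0 + 1)).1 p =
      Ck2.done (decide (∃ v, x (p, v, ea i v) = true)) := by
    intro p
    rw [Machine.run_states, Machine.run_zero]
    show Ck2.done (Option.isSome _) = _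
    congr 1
    rw [Bool.eq_iff_iff, decide_eq_true_iff]
    unfold Machine.find
    rw [List.findSome?_isSome_iff]
    show (∃ c ∈ (List.finRange n).map (fun v => Sum.inl (p, v, ea i v)), _) ↔ _
    constructor
    · rintro ⟨c, hc, hc2⟩
      obtain ⟨v, _, rfl⟩ := List.mem_map.1 hc
      refine ⟨v, ?_⟩
      split_ifs at hc2 with h
      · exact h
      · exact absurd hc2 (by simp)
    · rintro ⟨v, hv⟩
      refine ⟨Sum.inl (p, v, ea i v), List.mem_map.2 ⟨v, List.mem_finRange v, rfl⟩, ?_⟩
      split_ifs with h
      · rfl
      · exact absurd hv h
  show (((checker2 n M k ea).fix ((), i)).run x (0 + 1)).2 (Sum.inr ()) = true ↔ _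
  constructor
  · intro h c
    by_contra hcon
    have h2 : (((checker2 n M k ea).fix ((), i)).run x (0 + 1)).2 (Sum.inr ()) = false := by
      apply Machine.mem_some
      · refine ⟨c, ?_⟩
        rw [h1]
        have h3 : decide (∃ v, x (c, v, ea i v) = true) = false := decide_eq_false hcon
        rw [h3, Machine.wr_of (c' := Sum.inr ()) (v := false) rfl, if_pos rfl]
      · intro p v' hv'
        rw [h1] at hv'
        cases hd : decide (∃ v, x (p, v, ea i v) = true) with
        | true =>
          rw [hd, Machine.wr_none_of rfl] at hv'
          exact absurd hv' (by simp)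
        | false =>
          rw [hd, Machine.wr_of (c' := Sum.inr ()) (v := false) rfl, if_pos rfl,
            Option.some.injEq] at hv'
          exact hv'.symm
    rw [h2] at h
    exact absurd h (by simp)
  · intro h
    rw [Machine.mem_none]
    · rfl
    · intro p
      rw [h1]
      have h3 : decide (∃ v, x (p, v, ea i v) = true) = true := decide_eq_true (h p)
      rw [h3]
      exact Machine.wr_none_of rfl

/-- One guess among the assignments of the list. -/
theorem checker2_alt (n M k : ℕ) (ea : Fin k → (Fin n → Bool)) :
    (checker2 n M k ea).base.Lists n ∧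
      ∀ x, ((checker2 n M k ea).altAnswer 1 x = true ↔ ∃ i, Models x (ea i)) := by
  classical
  refine ⟨?_, ?_⟩
  · intro q
    cases q with
    | test c α =>
      show ((List.finRange n).map _).length ≤ n
      rw [List.length_map, List.length_finRange]
    | done β => exact Nat.zero_le _
  · intro x
    unfold Guess.altAnswer
    show (if true = true then decide (∃ i, ((checker2 n M k ea).fix ((), i)).answer 1 x = true)
      else decide (∀ i, ((checker2 n M k ea).fix ((), i)).answer 1 x = true)) = true ↔ _
    rw [if_pos rfl, decide_eq_true_iff]
    exact exists_congr fun i => checker2_answer n M k ea i x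

/-- The value of a variable in some satisfying assignment can be proved with `n - 1` bits. -/
theorem hid_upper (n M : ℕ) (v : Fin n) (β : Bool) :
    ∃ G : Guess Bool (Fin M × Fin n × Bool) M (Choices [(true, 2 ^ (n - 1))]),
      G.base.Lists n ∧ ∀ x, (G.altAnswer 1 x = true ↔ ∃ α, Models x α ∧ α v = β) := by
  classical
  have hcard : Fintype.card {α : Fin n → Bool // α v = β} = 2 ^ (n - 1) := by
    have h1 : ({α : Fin n → Bool // α v = β}) ≃ ({j : Fin n // j ≠ v} → Bool) :=
      { toFun := fun α j => α.1 j.1
        invFun := fun γ => ⟨fun j => if h : j = v then β else γ ⟨j, h⟩, by simp⟩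
        left_inv := by
          rintro ⟨α, hα⟩
          apply Subtype.ext
          funext j
          by_cases h : j = v
          · subst h
            simp [hα]
          · simp [h]
        right_inv := by
          intro γ
          funext j
          simp [j.2] }
    rw [Fintype.card_congr h1, Fintype.card_fun, Fintype.card_bool]
    congr 1
    rw [Fintype.card_subtype_compl]
    simp
  obtain ⟨ea⟩ : Nonempty (Fin (2 ^ (n - 1)) ≃ {α : Fin n → Bool // α v = β}) :=
    ⟨(Fintype.equivFinOfCardEq hcard).symm⟩
  obtain ⟨h1, h2⟩ := checker2_alt n M (2 ^ (n - 1)) (fun i => (ea i).1)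
  refine ⟨checker2 n M (2 ^ (n - 1)) (fun i => (ea i).1), h1, fun x => ?_⟩
  rw [h2]
  constructor
  · rintro ⟨i, hi⟩
    exact ⟨(ea i).1, hi, (ea i).2⟩
  · rintro ⟨α, hα, hv⟩
    refine ⟨ea.symm ⟨α, hv⟩, ?_⟩
    rw [Equiv.apply_symm_apply]
    exact hα

end Pool.Agent.W964.Wd
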